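import Pool.Agent.Helper62.DSH.StA

/-!
# Module SQD of project DSH: the norm of `wd p`
-/

set_option autoImplicit false

open Set Filter Topology MeasureTheory
open Helper62.LH Helper62.DSH

noncomputable section

namespace Pool.Agent.Helper89.DSH

/-- Summation over `(j+1)`-tuples through the entry in place `c`. -/
lemma sqd_sum {n j : ℕ} (c : Fin (j + 1)) (φ : (Fin (j + 1) → Fin n) → ℝ) :
    ∑ J, φ J = ∑ a : Fin n, ∑ K : Fin j → Fin n, φ (c.insertNth a K) := by
  rw [← Fintype.sum_prod_type' (f := fun (a : Fin n) (K : Fin j → Fin n) =>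
    φ (c.insertNth a K))]
  exact (Equiv.sum_comp (Fin.insertNthEquiv (fun _ => Fin n) c) φ).symm

lemma sqd_fact (j : ℕ) (x : ℝ) :
    ((j : ℝ) + 1) * x / ((j + 1).factorial : ℝ) = x / (j.factorial : ℝ) := by
  have h1 : ((j + 1).factorial : ℝ) = ((j : ℝ) + 1) * (j.factorial : ℝ) := by
    rw [Nat.factorial_succ]; push_cast; ring
  have h2 : (j.factorial : ℝ) ≠ 0 := by exact_mod_cast j.factorial_ne_zero
  have h3 : ((j : ℝ) + 1) ≠ 0 := by positivity
  rw [h1]
  field_simp

lemma sqd_sq (k : ℕ) : ((-1 : ℝ) ^ k) * ((-1 : ℝ) ^ k) = 1 := by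
  rw [← mul_pow]; simp

theorem sqd_alt (hAlt : TAlt) {n j : ℕ} (p : Fin n → Tn n j) (hp : ∀ a, Altn (p a)) :
    Altn (wd p) := by
  obtain ⟨h1, h2, -, -⟩ := hAlt n j
  choose A hA using fun a => h1 (p a) (hp a)
  obtain ⟨-, h2', -, -⟩ := hAlt n (j + 1)
  let f : (Fin n → ℝ) →ₗ[ℝ] (Fin n → ℝ) [⋀^Fin j]→ₗ[ℝ] ℝ :=
    ∑ a, (LinearMap.proj a).smulRight (A a)
  have hf : ∀ v, f v = ∑ a, v a • A a := by
    intro v
    simp [f, LinearMap.sum_apply]
  have hw : wd p = fun J : Fin (j + 1) → Fin n =>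
      (AlternatingMap.alternatizeUncurryFin f) (fun k => Pi.single (J k) 1) := by
    funext J
    rw [AlternatingMap.alternatizeUncurryFin_apply]
    unfold wd
    refine Finset.sum_congr rfl fun c _ => ?_
    rw [hf]
    have h3 : (∑ a, (Pi.single (J c) (1 : ℝ) : Fin n → ℝ) a • A a) = A (J c) := by
      rw [Finset.sum_eq_single (J c)]
      · simp
      · intro b _ hb
        simp [Pi.single_eq_of_ne hb]
      · intro h; exact absurd (Finset.mem_univ _) h
    rw [h3]
    have h4 : (Fin.removeNth c fun k => (Pi.single (J k) (1 : ℝ) : Fin n → ℝ)) =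
        fun i => Pi.single (J (c.succAbove i)) 1 := rfl
    rw [h4, hA]
    simp
  rw [hw]
  exact h2' _

theorem sqd_adj (hAlt : TAlt) {n j : ℕ} (t : Tn n (j + 1)) (p : Fin n → Tn n j)
    (ht : Altn t) : ipt t (wd p) = ∑ a, ipt (ct a t) (p a) := by
  obtain ⟨-, -, -, h4⟩ := hAlt n j
  have key : (∑ J, t J * wd p J) = ((j : ℝ) + 1) * ∑ a, ∑ K, ct a t K * p a K := by
    unfold wd
    have e1 : (∑ J, t J * ∑ c : Fin (j + 1), (-1) ^ (c : ℕ) *
        p (J c) (fun i => J (c.succAbove i))) =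
        ∑ c : Fin (j + 1), ∑ J, t J * ((-1) ^ (c : ℕ) * p (J c) (fun i => J (c.succAbove i))) := by
      rw [Finset.sum_comm]
      exact Finset.sum_congr rfl fun J _ => Finset.mul_sum _ _ _
    rw [e1]
    have e2 : ∀ c : Fin (j + 1), (∑ J, t J * ((-1) ^ (c : ℕ) *
        p (J c) (fun i => J (c.succAbove i)))) = ∑ a, ∑ K, ct a t K * p a K := by
      intro c
      rw [sqd_sum c]
      refine Finset.sum_congr rfl fun a _ => Finset.sum_congr rfl fun K _ => ?_
      rw [h4 t ht c a K]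
      simp only [Fin.insertNth_apply_same, Fin.insertNth_apply_succAbove]
      unfold ct
      have := sqd_sq (c : ℕ)
      linear_combination (t (Fin.cons a K) * p a K) * this
    rw [Finset.sum_congr rfl fun c _ => e2 c]
    simp
  unfold ipt
  rw [key, sqd_fact, Finset.sum_div]

theorem hSqd (hAlt : TAlt) : TSqd := by
  intro n
  refine ⟨fun j p hp => sqd_alt hAlt p hp, fun j t p ht => sqd_adj hAlt t p ht, ?_⟩
  intro m p hp
  obtain ⟨-, -, -, h4⟩ := hAlt n m
  unfold q2
  rw [sqd_adj hAlt (wd p) p (sqd_alt hAlt p hp), ← Finset.sum_sub_distrib]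
  refine Finset.sum_congr rfl fun a _ => ?_
  have hct : ∀ I : Fin (m + 1) → Fin n, ct a (wd p) I = p a I +
      ∑ k : Fin (m + 1), (-1) ^ ((k : ℕ) + 1) *
        p (I k) (Fin.cons a (fun i => I (k.succAbove i))) := by
    intro I
    unfold ct wd
    rw [Fin.sum_univ_succ]
    congr 1
    · simp
    · refine Finset.sum_congr rfl fun k _ => ?_
      have h5 : (fun i : Fin (m + 1) => (Fin.cons a I : Fin (m + 2) → Fin n)
          (k.succ.succAbove i)) = Fin.cons a (fun i => I (k.succAbove i)) := by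
        funext i
        refine Fin.cases ?_ (fun i => ?_) i
        · simp
        · simp
      rw [h5]
      simp
  have key : ∀ k : Fin (m + 1), (∑ I : Fin (m + 1) → Fin n, (-1) ^ ((k : ℕ) + 1) *
      p (I k) (Fin.cons a (fun i => I (k.succAbove i))) * p a I) =
      -∑ b, ∑ K, ct a (p b) K * ct b (p a) K := by
    intro k
    rw [sqd_sum k, ← Finset.sum_neg_distrib]
    refine Finset.sum_congr rfl fun b _ => ?_
    rw [← Finset.sum_neg_distrib]
    refine Finset.sum_congr rfl fun K _ => ?_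
    rw [h4 (p a) (hp a) k b K]
    simp only [Fin.insertNth_apply_same, Fin.insertNth_apply_succAbove]
    unfold ct
    have := sqd_sq (k : ℕ)
    rw [pow_succ]
    linear_combination (-(p b (Fin.cons a K) * p a (Fin.cons b K))) * this
  have tot : (∑ I, ct a (wd p) I * p a I) = (∑ I, p a I * p a I) +
      ((m : ℝ) + 1) * (-∑ b, ∑ K, ct a (p b) K * ct b (p a) K) := by
    have e1 : (∑ I, ct a (wd p) I * p a I) = (∑ I, p a I * p a I) +
        ∑ k : Fin (m + 1), ∑ I : Fin (m + 1) → Fin n, (-1) ^ ((k : ℕ) + 1) *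
          p (I k) (Fin.cons a (fun i => I (k.succAbove i))) * p a I := by
      rw [Finset.sum_comm, ← Finset.sum_add_distrib]
      refine Finset.sum_congr rfl fun I _ => ?_
      rw [hct I, add_mul, Finset.sum_mul]
    rw [e1, Finset.sum_congr rfl fun k _ => key k]
    simp
  unfold ipt
  have e3 : (∑ b, (∑ K, ct a (p b) K * ct b (p a) K) / (m.factorial : ℝ)) =
      (∑ b, ∑ K, ct a (p b) K * ct b (p a) K) / (m.factorial : ℝ) :=
    (Finset.sum_div _ _ _).symm
  rw [tot, add_div, sqd_fact, neg_div, e3]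
  exact (sub_eq_add_neg _ _).symm

end Pool.Agent.Helper89.DSH
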